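import Pool.Agent.R782.Bal.Tay
import Pool.Agent.R703.MO.Gam

/-!
# Coxeter edge weights on flag homology spheres: the inequality from the links of the heavy faces
-/

set_option autoImplicit false
set_option linter.unusedSectionVars false

namespace Run7.h709.CW

open Finset Pool.Agent.W907.SG Pool.Agent.W907.SM
open Pool.Agent.TH652.Above (HSph singer_of_above chi_sign)
open Pool.Agent.W497.FS (cl lam lkF mem_cl mem_lkF cl_of_subset)
open Pool.Agent.TH709.GG (Cls)
open Pool.Agent.R703.CW (Orders omegaN omegaN_eq chiW_eq mem_cl_univ card_le_of_hsph hsph_link chiW_link Heavy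
  lam_ra bN_ra bN_ra_empty bN_light flagEul_of_hsph cd_of_cls)
open Y365.FS

variable {V : Type} [Fintype V] [LinearOrder V] {G : SimpleGraph V}

/-- A union of components (for the graph of the edges of weight different from `2`) of `T` has an odd number of
elements. -/
def OddBlock (w : Finset V → ℕ) (T : Finset V) : Prop :=
  ∃ A ⊆ T, Odd A.card ∧ ∀ x ∈ A, ∀ y ∈ T, y ∉ A → w {x, y} = 2

/-- the Charney–Davis inequality for the links of dimension at most one -/
theorem cd_small {m : ℕ} (hS : HSph (2 * m) G) (T : Finset V) (hT : G.IsClique (T : Set V)) {j l : ℕ}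
    (hj : T.card = 2 * j) (hl : j + l = m) (h : l < 2) : 0 ≤ (-1) ^ l * lam G (lkF G Finset.univ T) := by
  classical
  have hfin : Fintype ↥(lk G T) := Fintype.ofFinite _
  have h1 := hsph_link hS T hT
  have h3 : 2 * m - T.card = 2 * l := by omega
  rw [h3] at h1
  rw [← chiW_link T, chiW_eq]
  exact cd_of_cls (Cls.small (by omega) (flagEul_of_hsph h1))

/-- **the weighted quantity is at least the right-angled one** -/
theorem weighted_ge' {m : ℕ} (hS : HSph (2 * m) G) (w : Finset V → ℕ) (M : Finset V → ℚ) (hN : Orders G w M)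
    (hCD : ∀ T : Finset V, G.IsClique (T : Set V) → T.Nonempty → Heavy w T → ¬ OddBlock w T → ∀ j l,
      T.card = 2 * j → j + l = m → 2 ≤ l → 0 ≤ (-1) ^ l * lam G (lkF G Finset.univ T)) :
    (-1) ^ m * chiW G ≤ (-1) ^ m * omegaN G M := by
  classical
  rw [omegaN_eq, chiW_eq]
  have hw : ∀ e ∈ cl G univ, e.card = 2 → 2 ≤ w e ∧ M e = 2 * w e := by
    intro e he he2
    obtain ⟨u, v, huv, rfl⟩ := Finset.card_eq_two.1 he2
    exact hN.edge u v ((mem_cl_univ _).1 he (by simp) (by simp) huv)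
  have hmul : ∀ A B, Disjoint A B → A ∪ B ∈ cl G univ → (∀ a ∈ A, ∀ b ∈ B, w {a, b} = 2) →
      M (A ∪ B) = M A * M B := fun A B hAB hAB2 h => hN.mul A B hAB ((mem_cl_univ _).1 hAB2) h
  have hF : ∀ T ∈ cl G univ, ∀ U ⊆ T, U ∈ cl G univ := fun T hT U hU => cl_of_subset hT hU
  have hG := goodOrders_of hF w (fun e he he2 => (hw e he he2).1) M hN.empty (fun v _ => hN.vertex v)
    (fun e he he2 => (hw e he he2).2) hmul (fun T hT h3 hc => hN.sign T ((mem_cl_univ T).1 hT) h3 hc)
  have hN0 : bN M (∅ : Finset V) = 1 := by simp [bN, hN.empty]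
  rw [← lam_ra (H := G) univ]
  refine Pool.Agent.R703.CW.compare m univ (fun σ => 2 ^ σ.card) M
    (fun T hT => card_le_of_hsph hS T ((mem_cl_univ T).1 hT)) ?_ ?_ ?_
  · intro T hT ho
    rw [(hG T hT).1 ho, bN_ra T (Finset.card_pos.1 ho.pos)]
  · intro T hT j hj
    rcases T.eq_empty_or_nonempty with rfl | hne
    · rw [hN0, bN_ra_empty, sub_self, mul_zero]
    · rw [bN_ra T hne, sub_zero]
      exact (hG T hT).2 j hj
  · intro T hT j l hj hl hb
    rcases T.eq_empty_or_nonempty with rfl | hne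
    · exact absurd (by rw [hN0, bN_ra_empty]) hb
    · have hTc := (mem_cl_univ T).1 hT
      have hh : Heavy w T := by
        by_contra hh
        exact hb (by rw [bN_ra T hne, bN_light hF w M hN.empty (fun v _ => hN.vertex v) hmul T hT hh])
      rcases Nat.lt_or_ge l 2 with hl2 | hl2
      · exact cd_small hS T hTc hj hl hl2
      · refine hCD T hTc hne hh ?_ j l hj hl hl2
        rintro ⟨A, hA, hAo, hAw⟩
        apply hb
        rw [bN_ra T hne]
        have hd : Disjoint A (T \ A) := disjoint_sdiff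
        have hu : A ∪ (T \ A) = T := union_sdiff_of_subset hA
        have h2 := bN_union hd M (fun U hU V hV => hmul U V
          (Finset.disjoint_of_subset_left hU (Finset.disjoint_of_subset_right hV hd))
          (hF T hT _ (by rw [← hu]; exact Finset.union_subset_union hU hV))
          (fun x hx y hy => by
            have hy' := mem_sdiff.1 (hV hy)
            exact hAw x (hU hx) y hy'.1 hy'.2))
        rw [hu, (hG A (hF T hT A hA)).1 hAo, zero_mul] at h2
        exact h2.symm

/-- faces covered by disjoint edges of weight different from `2` -/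
theorem not_oddBlock (w : Finset V → ℕ)
    (hmat : ∀ u v z, G.Adj u v → G.Adj u z → G.Adj v z → w {u, v} = 2 ∨ w {u, z} = 2) (T : Finset V)
    (hT : G.IsClique (T : Set V)) (hh : Heavy w T) : ¬ OddBlock w T := by
  classical
  rintro ⟨A, hA, hAo, hAw⟩
  have h1 : ∀ a ∈ A, ∃ b ∈ A, b ≠ a ∧ w {a, b} ≠ 2 := by
    intro a ha
    obtain ⟨b, hb, hba, hw⟩ := hh a (hA ha)
    refine ⟨b, ?_, hba, hw⟩
    by_contra hbA
    exact hw (hAw a ha b hb hbA)
  choose g hg1 hg2 hg3 using h1
  have h2 : ∑ _x ∈ A, (1 : ZMod 2) = 0 := by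
    refine Finset.sum_involution (fun a ha => g a ha) (fun a _ => by decide) (fun a ha _ => hg2 a ha)
      (fun a ha => hg1 a ha) (fun a ha => ?_)
    by_contra hne
    have h3 : g (g a ha) (hg1 a ha) ∈ A := hg1 _ _
    have e1 : G.Adj (g a ha) a := hT (Finset.mem_coe.2 (hA (hg1 a ha))) (Finset.mem_coe.2 (hA ha)) (hg2 a ha)
    have e2 : G.Adj (g a ha) (g (g a ha) (hg1 a ha)) :=
      hT (Finset.mem_coe.2 (hA (hg1 a ha))) (Finset.mem_coe.2 (hA h3)) (hg2 _ _).symm
    have e3 : G.Adj a (g (g a ha) (hg1 a ha)) :=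
      hT (Finset.mem_coe.2 (hA ha)) (Finset.mem_coe.2 (hA h3)) (Ne.symm hne)
    rcases hmat _ _ _ e1 e2 e3 with h | h
    · rw [Finset.pair_comm] at h
      exact hg3 a ha h
    · exact hg3 _ _ h
  rw [Finset.sum_const, nsmul_eq_mul, mul_one] at h2
  rw [← Nat.not_even_iff_odd] at hAo
  exact hAo ((ZMod.natCast_eq_zero_iff_even).1 h2)

/-- **monotonicity in the weights** -/
theorem weighted_mono' {m : ℕ} (hS : HSph (2 * m) G) (w w' : Finset V → ℕ) (hw : ∀ e, 2 ≤ w e)
    (hww : ∀ e, w e ≤ w' e)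
    (hmat : ∀ u v z, G.Adj u v → G.Adj u z → G.Adj v z → w' {u, v} = 2 ∨ w' {u, z} = 2)
    (hCD : ∀ T : Finset V, G.IsClique (T : Set V) → T.Nonempty → Heavy w' T → ¬ OddBlock w' T → ∀ j l,
      T.card = 2 * j → j + l = m → 2 ≤ l → 0 ≤ (-1) ^ l * lam G (lkF G Finset.univ T)) :
    (-1) ^ m * omegaN G (ordM w) ≤ (-1) ^ m * omegaN G (ordM w') := by
  rw [omegaN_eq, omegaN_eq]
  refine Pool.Agent.R703.CW.mono m Finset.univ (fun T hT => card_le_of_hsph hS T ((mem_cl_univ T).1 hT)) w w' hw hww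
    (fun T hT u hu v hv z hz h1 h2 h3 => ?_) ?_
  · have h4 := (mem_cl_univ T).1 hT
    exact hmat u v z (h4 hu hv h1) (h4 hu hz h2) (h4 hv hz h3)
  · intro T hT hne hh j l hj hl
    rcases Nat.lt_or_ge l 2 with hl2 | hl2
    · exact cd_small hS T ((mem_cl_univ T).1 hT) hj hl hl2
    · exact hCD T ((mem_cl_univ T).1 hT) hne hh (not_oddBlock w' hmat T ((mem_cl_univ T).1 hT) hh) j l hj hl hl2

end Run7.h709.CW
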