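import Pool.Agent.Run7.h709.CW.Base

/-!
# Coxeter edge weights on coloured subdivisions
-/

set_option autoImplicit false
set_option linter.unusedSectionVars false

namespace Run7.h709.CW

open Finset Pool.Agent.W907.SG Pool.Agent.W907.SM Pool.Agent.R782.Bal
open Pool.Agent.TH652.Above (HSph)
open Pool.Agent.R703.CW (Orders omegaN Heavy)
open Y365.FS (ordM)

/-- The flag complex of `G` is isomorphic to a subcomplex of a simplicial complex `K` of dimension at most `n` which
is a homology sphere (and homology manifold) over the field with two elements. This holds if the flag complex of `G`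
itself is such a homology sphere, of dimension `n - 1`. -/
def Mod2 {V : Type} (n : ℕ) (G : SimpleGraph V) : Prop :=
  ∃ (N n' : ℕ) (K : Finset (Finset (Fin N))) (f : V ↪ Fin N), n' ≤ n + 1 ∧ Pool.Agent.Y131.KS.HSph K n' ∧
    ∀ T : Finset V, G.IsClique (T : Set V) → T.map f ∈ K

/-- The number of the colours `c` such that `T` has an odd number of vertices of the colour `c` (`mc σ` is the colour
of the vertices of `σ`). -/
noncomputable def oddColours {N k : ℕ} {X : Finset (Finset (Fin N))} {col : Fin N → Fin k}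
    (T : Finset (MF X col)) : ℕ :=
  ∑ c : Fin k, (T.filter (fun σ => mc σ = c)).card % 2

theorem odd_eq {N k : ℕ} {X : Finset (Finset (Fin N))} {col : Fin N → Fin k} (T : Finset (MF X col)) :
    oddColours T = ∑ c : Fin k, tcol T c % 2 :=
  Finset.sum_congr rfl fun c _ => by rw [tcol]

variable {N k : ℕ} {X : Finset (Finset (Fin N))} {col : Fin N → Fin k}
variable [Fintype (MF X col)] [LinearOrder (MF X col)]

/-- the links of the faces with few odd colours -/
theorem cd_col (a : Fin k → ℕ) (hX : ∀ σ ∈ X, ∀ τ : Finset (Fin N), τ ⊆ σ → τ ∈ X)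
    (ha : ∀ σ ∈ X, ∀ c, (∀ v ∈ σ, col v = c) → σ.card ≤ 2 * a c) {m : ℕ}
    (hS : HSph (2 * m) (cs X col)) (hS2 : Mod2 (2 * m) (cs X col)) (T : Finset (MF X col))
    (hT : (cs X col).IsClique (T : Set (MF X col))) (hc : 2 * ∑ c, a c + oddColours T ≤ 2 * m + 2) (j l : ℕ)
    (hj : T.card = 2 * j) (hl : j + l = m) :
    0 ≤ (-1) ^ l * Pool.Agent.W497.FS.lam (cs X col) (Pool.Agent.W497.FS.lkF (cs X col) Finset.univ T) := by
  obtain ⟨N'', n', K, f, hn, hK, hf⟩ := hS2
  rw [odd_eq] at hc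
  exact cd_link3 hX a ha hS K f hn hK hf T hT (by omega) hc

/-- the right-angled inequality -/
theorem ra_col (a : Fin k → ℕ) (hX : ∀ σ ∈ X, ∀ τ : Finset (Fin N), τ ⊆ σ → τ ∈ X)
    (ha : ∀ σ ∈ X, ∀ c, (∀ v ∈ σ, col v = c) → σ.card ≤ 2 * a c) {m : ℕ}
    (hS : HSph (2 * m) (cs X col)) (hS2 : Mod2 (2 * m) (cs X col)) (hc : ∑ c, a c ≤ m + 1) :
    0 ≤ (-1 : ℚ) ^ m * chiW (cs X col) := by
  obtain ⟨N'', n', K, f, hn, hK, hf⟩ := hS2
  exact ra_cs hX a ha hS K f hn hK hf hc

/-- the weighted quantity is at least the right-angled one -/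
theorem ge_col (a : Fin k → ℕ) (hX : ∀ σ ∈ X, ∀ τ : Finset (Fin N), τ ⊆ σ → τ ∈ X)
    (ha : ∀ σ ∈ X, ∀ c, (∀ v ∈ σ, col v = c) → σ.card ≤ 2 * a c) {m : ℕ}
    (hS : HSph (2 * m) (cs X col)) (hS2 : Mod2 (2 * m) (cs X col)) (w : Finset (MF X col) → ℕ)
    (M : Finset (MF X col) → ℚ) (hN : Orders (cs X col) w M)
    (hc : ∀ T : Finset (MF X col), (cs X col).IsClique (T : Set (MF X col)) → T.Nonempty → Even T.card →
      T.card + 4 ≤ 2 * m → Heavy w T → ¬ OddBlock w T → 2 * ∑ c, a c + oddColours T ≤ 2 * m + 2) :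
    (-1) ^ m * chiW (cs X col) ≤ (-1) ^ m * omegaN (cs X col) M :=
  weighted_ge' hS w M hN fun T hT hne hh ho j l hj hl hl2 =>
    cd_col a hX ha hS hS2 T hT (hc T hT hne ⟨j, by omega⟩ (by omega) hh ho) j l hj hl

/-- the numerical condition -/
theorem num_col (a : Fin k → ℕ) {m : ℕ} (h : 2 * ∑ c, a c + min k (2 * m - 4) ≤ 2 * m + 3)
    (T : Finset (MF X col)) (he : Even T.card) (hT : T.card + 4 ≤ 2 * m) :
    2 * ∑ c, a c + oddColours T ≤ 2 * m + 2 := by
  have h1 := odd_parity T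
  have h2 := odd_le T
  have h3 := odd_le_card T
  rw [← odd_eq] at h1 h2 h3
  rw [Nat.even_iff] at he
  omega

/-- weights different from `2` on monochromatic edges -/
theorem mono_col (a : Fin k → ℕ) {m : ℕ} (h : ∑ c, a c ≤ m + 1) (w : Finset (MF X col) → ℕ)
    (hw : ∀ x y, (cs X col).Adj x y → w {x, y} ≠ 2 → mc x = mc y)
    (T : Finset (MF X col)) (hT : (cs X col).IsClique (T : Set (MF X col))) (ho : ¬ OddBlock w T) :
    2 * ∑ c, a c + oddColours T ≤ 2 * m + 2 := by
  classical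
  have h0 : oddColours T = 0 := by
    rw [oddColours]
    refine Finset.sum_eq_zero fun c _ => ?_
    by_contra hc
    refine ho ⟨T.filter (fun σ => mc σ = c), Finset.filter_subset _ _, ?_, ?_⟩
    · rw [Nat.odd_iff]
      omega
    · intro x hx y hy hyc
      rw [Finset.mem_filter] at hx hyc
      by_contra hxy
      have hne : x ≠ y := by
        rintro rfl
        exact hyc hx
      have h1 := hw x y (hT (Finset.mem_coe.2 hx.1) (Finset.mem_coe.2 hy) hne) hxy
      exact hyc ⟨hy, by rw [← h1, hx.2]⟩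
  omega

end Run7.h709.CW
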